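import Pool.Agent.Helper76.CQ.Defs

/-!
# Project CQ, piece CQ-5a: injectivity of the differential
-/

namespace Pool.Agent.Helper8.CQ

open MvPolynomial Pool.Agent.Helper76.CY Pool.Agent.Helper76.CQ

lemma eq_smul_of {K : Type*} [Field K] (x : Fin 10 → K) (h0 : x 0 = 0) (h1 : x 1 = 0)
    (h2 : x 2 = 0) (h4 : x 4 = 0) (h5 : x 5 = 0) (h6 : x 6 = 0) (h7 : x 7 = 0) (h8 : x 8 = 0)
    (h9 : x 9 = 0) : x = x 3 • bv K 3 := by
  funext j
  rw [Pi.smul_apply, bv_apply, smul_eq_mul]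
  fin_cases j
  · simpa using h0
  · simpa using h1
  · simpa using h2
  · simp
  · simpa using h4
  · simpa using h5
  · simpa using h6
  · simpa using h7
  · simpa using h8
  · simpa using h9

lemma tv_zero_of {K : Type*} [Field K] (a : Idx → K) (i : Fin 3) :
    tv a i 0 = 0 ∧ tv a i 1 = 0 ∧ tv a i 2 = 0 := by
  refine ⟨?_, ?_, ?_⟩
  · exact dif_pos (by decide)
  · exact dif_pos (by decide)
  · exact dif_pos (by decide)

lemma D_small {K : Type*} [Field K] {D : Ten K} (hD : Window D) (j k : Fin 3) :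
    D 3 (c3 j) (c3 k) = 0 := by
  have h1 : ∀ j k : Fin 3, j ≤ k → D (c3 j) (c3 k) 3 = 0 := by
    intro j k hjk
    refine hD.zero _ _ _ ?_ ?_ le_rfl ?_
    · fin_cases j <;> fin_cases k <;> first | decide | (exfalso; revert hjk; decide)
    · fin_cases k <;> decide
    · rintro ⟨-, h, -⟩
      revert h
      fin_cases k <;> decide
  have h2 : ∀ j k : Fin 3, D (c3 j) (c3 k) 3 = 0 := by
    intro j k
    rcases le_total j k with h | h
    · exact h1 j k h
    · rw [hD.swap12]; exact h1 k j h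
  rw [hD.swap12, hD.swap23]
  exact h2 j k

theorem step_inj {K : Type*} [Field K] [CharZero K] (D : Ten K) (hD : Window D) (τ : Idx → K)
    (hτ : τ ∈ tanSp D) (h : IsStep D τ 0) : τ = 0 := by
  obtain ⟨m, c, hm0, hm1, hm2, hm3, hm, -, -, -, hk⟩ := h
  have hid : ∀ x : K, algebraMap K K x = x := fun x => rfl
  -- the vectors
  have hc0 : c 0 = 0 ∧ c 1 = 0 ∧ c 2 = 0 := by
    have := hk 6
    have e : (Fin.castLE (by norm_num) (6 : Fin 7) + 4 : Fin 10) = 0 := by decide
    rw [e] at this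
    simp only [Pi.zero_apply, Pi.sub_apply, Pi.smul_apply, (tv_zero_of τ 1).1,
      (tv_zero_of τ 2).1, hm0, bv_apply, if_true, smul_eq_mul, mul_one, zero_sub] at this
    refine ⟨?_, ?_, ?_⟩
    · exact neg_eq_zero.1 this.1.symm
    · exact neg_eq_zero.1 this.2.1.symm
    · exact neg_eq_zero.1 this.2.2.symm
  obtain ⟨hc0, hc1, hc2⟩ := hc0
  have hk' : ∀ k : Fin 7, tv τ 1 (Fin.castLE (by norm_num) k + 4) = 0 ∧
      tv τ 2 (Fin.castLE (by norm_num) k + 4) = 0 ∧ m (Fin.castLE (by norm_num) k + 4) = 0 := by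
    intro k
    have := hk k
    rw [hc0, hc1, hc2, zero_smul, sub_zero, sub_zero, sub_zero] at this
    exact ⟨this.1.symm, this.2.1.symm, this.2.2.symm⟩
  have k0 := hk' 0
  have k1 := hk' 1
  have k2 := hk' 2
  have k3 := hk' 3
  have k4 := hk' 4
  have k5 := hk' 5
  have e0 : (Fin.castLE (by norm_num) (0 : Fin 7) + 4 : Fin 10) = 4 := by decide
  have e1 : (Fin.castLE (by norm_num) (1 : Fin 7) + 4 : Fin 10) = 5 := by decide
  have e2 : (Fin.castLE (by norm_num) (2 : Fin 7) + 4 : Fin 10) = 6 := by decide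
  have e3 : (Fin.castLE (by norm_num) (3 : Fin 7) + 4 : Fin 10) = 7 := by decide
  have e4 : (Fin.castLE (by norm_num) (4 : Fin 7) + 4 : Fin 10) = 8 := by decide
  have e5 : (Fin.castLE (by norm_num) (5 : Fin 7) + 4 : Fin 10) = 9 := by decide
  rw [e0] at k0
  rw [e1] at k1
  rw [e2] at k2
  rw [e3] at k3
  rw [e4] at k4
  rw [e5] at k5
  have hmz : m = 0 := by
    rw [eq_smul_of m hm0 hm1 hm2 k0.2.2 k1.2.2 k2.2.2 k3.2.2 k4.2.2 k5.2.2, hm3, zero_smul]
  have t1 := eq_smul_of (tv τ 1) (tv_zero_of τ 1).1 (tv_zero_of τ 1).2.1 (tv_zero_of τ 1).2.2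
    k0.1 k1.1 k2.1 k3.1 k4.1 k5.1
  have t2 := eq_smul_of (tv τ 2) (tv_zero_of τ 2).1 (tv_zero_of τ 2).2.1 (tv_zero_of τ 2).2.2
    k0.2.1 k1.2.1 k2.2.1 k3.2.1 k4.2.1 k5.2.1
  set α := tv τ 1 3 with hα
  set β := tv τ 2 3 with hβ
  have q1 : ∀ j k : Fin 3, tri D (tv τ 1) (bv K (c3 j)) (bv K (c3 k)) = 0 := by
    intro j k
    rw [t1, tri_smul_left, tri_bv, D_small hD, map_zero, mul_zero]
  have q2 : ∀ j k : Fin 3, tri D (tv τ 2) (bv K (c3 j)) (bv K (c3 k)) = 0 := by
    intro j k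
    rw [t2, tri_smul_left, tri_bv, D_small hD, map_zero, mul_zero]
  have s12 : ∀ x y z : Fin 10 → K, tri D x y z = tri D y x z := tri_swap12 hD.swap12
  have s23 : ∀ x y z : Fin 10 → K, tri D x y z = tri D x z y := tri_swap23 hD.swap23
  have htan : ∀ i j k : Fin 3, tri D (tv τ i) (bv K (c3 j)) (bv K (c3 k)) +
      tri D (tv τ j) (bv K (c3 i)) (bv K (c3 k)) + tri D (tv τ k) (bv K (c3 i)) (bv K (c3 j)) =
      0 := by
    intro i j k
    have h1 : tanVal D τ i j k = 0 := hτ i j k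
    rw [tanVal] at h1
    rw [s12 (bv K (c3 i)) (tv τ j) _, s23 (bv K (c3 i)) (bv K (c3 j)) (tv τ k),
      s12 (bv K (c3 i)) (tv τ k) _] at h1
    exact h1
  have q0 : ∀ j k : Fin 3, tri D (tv τ 0) (bv K (c3 j)) (bv K (c3 k)) = 0 := by
    have h2 : (2 : K) ≠ 0 := two_ne_zero
    have h3 : (3 : K) ≠ 0 := three_ne_zero
    have h00 := htan 0 0 0
    have h01 := htan 0 0 1
    have h02 := htan 0 0 2
    have h11 := htan 0 1 1
    have h12 := htan 0 1 2
    have h22 := htan 0 2 2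
    simp only [q1, q2, add_zero] at h01 h02 h11 h12 h22
    have h00' : tri D (tv τ 0) (bv K (c3 0)) (bv K (c3 0)) = 0 := by
      have : (3 : K) * tri D (tv τ 0) (bv K (c3 0)) (bv K (c3 0)) = 0 := by
        linear_combination h00
      exact (mul_eq_zero.1 this).resolve_left h3
    have h01' : tri D (tv τ 0) (bv K (c3 0)) (bv K (c3 1)) = 0 := by
      have : (2 : K) * tri D (tv τ 0) (bv K (c3 0)) (bv K (c3 1)) = 0 := by
        linear_combination h01
      exact (mul_eq_zero.1 this).resolve_left h2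
    have h02' : tri D (tv τ 0) (bv K (c3 0)) (bv K (c3 2)) = 0 := by
      have : (2 : K) * tri D (tv τ 0) (bv K (c3 0)) (bv K (c3 2)) = 0 := by
        linear_combination h02
      exact (mul_eq_zero.1 this).resolve_left h2
    intro j k
    fin_cases j <;> fin_cases k
    · exact h00'
    · exact h01'
    · exact h02'
    · rw [s23]; exact h01'
    · exact h11
    · exact h12
    · rw [s23]; exact h02'
    · rw [s23]; exact h12
    · exact h22
  -- the vector `T_0`
  set γ := tv τ 0 3 with hγ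
  have t0 : tv τ 0 = γ • bv K 3 := by
    have hn : tv τ 0 - γ • bv K 3 = 0 := by
      refine hD.nondeg _ ?_ ?_ ?_ ?_ ?_
      · simp [(tv_zero_of τ 0).1, bv_apply]
      · simp [(tv_zero_of τ 0).2.1, bv_apply]
      · simp [(tv_zero_of τ 0).2.2, bv_apply]
      · simp [bv_apply, hγ]
      · intro i j
        rw [tri_sub_left, q0, tri_smul_left, tri_bv, D_small hD, map_zero, mul_zero, sub_zero]
    exact sub_eq_zero.1 hn
  have z331 : D 3 3 1 = 0 := by
    have : D 1 3 3 = 0 := hD.zero 1 3 3 (by decide) (by decide) (by decide) (by decide)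
    rw [hD.swap23 3 3 1, hD.swap12 3 1 3]; exact this
  have z332 : D 3 3 2 = 0 := by
    have : D 2 3 3 = 0 := hD.zero 2 3 3 (by decide) (by decide) (by decide) (by decide)
    rw [hD.swap23 3 3 2, hD.swap12 3 2 3]; exact this
  have z303 : D 3 0 3 = D 0 3 3 := hD.swap12 3 0 3
  have z330 : D 3 3 0 = D 0 3 3 := by rw [hD.swap23 3 3 0, hD.swap12 3 0 3]
  have c30 : c3 0 = 0 := rfl
  have c31 : c3 1 = 1 := rfl
  have c32 : c3 2 = 2 := rfl
  have m01 := hm 0 1
  have m02 := hm 0 2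
  have m00 := hm 0 0
  rw [hmz, tri_zero_left, zero_add, t0, t1, tri_smul_mid, tri_smul_right, c30, c31, tri_bv,
    tri_bv, z331, z303, map_zero, mul_zero, zero_add, hid] at m01
  rw [hmz, tri_zero_left, zero_add, t0, t2, tri_smul_mid, tri_smul_right, c30, c32, tri_bv,
    tri_bv, z332, z303, map_zero, mul_zero, zero_add, hid] at m02
  rw [hmz, tri_zero_left, zero_add, t0, tri_smul_mid, tri_smul_right, c30, tri_bv,
    tri_bv, z330, z303, hid, ← two_mul] at m00
  have hα0 : α = 0 := (mul_eq_zero.1 m01).resolve_right hD.alpha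
  have hβ0 : β = 0 := (mul_eq_zero.1 m02).resolve_right hD.alpha
  have hγ0 : γ = 0 :=
    (mul_eq_zero.1 ((mul_eq_zero.1 m00).resolve_left two_ne_zero)).resolve_right hD.alpha
  rw [hα0, zero_smul] at t1
  rw [hβ0, zero_smul] at t2
  rw [hγ0, zero_smul] at t0
  have hall : ∀ i : Fin 3, tv τ i = 0 := by
    intro i
    fin_cases i
    · exact t0
    · exact t1
    · exact t2
  funext ⟨i, k⟩
  have h5 := congrFun (hall i) ⟨k.val + 3, by omega⟩
  rw [tv, dif_neg (by simp)] at h5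
  have h6 : (⟨(⟨k.val + 3, by omega⟩ : Fin 10).val - 3, by simp⟩ : Fin 7) = k := by
    apply Fin.ext; simp
  rw [h6] at h5
  exact h5

end Pool.Agent.Helper8.CQ
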